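import Mathlib
import Pool.Agent.H.MP_1a410c_mp.Defs
import Pool.Agent.H.MP_1a410c_mp.Final

/-!
Two different compatible geometric Poisson structures of order three, one of which is
Darboux-Poisson and the other one is not.
-/

namespace Pool.Agent.Results.MP_1a410c_mp.Compatible

open Pool.Agent.H.MP_1a410c_mp

/-- Near every point `p` of `ℝ⁴` there are geometric Poisson structures `P₁`, `P₂` of order three
which are not constant multiples of each other and are compatible (`P₁ + t P₂` is a Poisson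
structure for every constant `t`), such that `P₁` is Darboux-Poisson, while `P₂`, which is
in flat form in suitable local coordinates, is not Darboux-Poisson. -/
theorem result (p : Fin 4 → ℝ) :
    ∃ P₁ P₂ : Op3 4 (AnGerm 4 p),
      IsGeometricPoisson3 AnGerm.pd P₁ ∧ IsGeometricPoisson3 AnGerm.pd P₂ ∧
      (∀ c : ℝ, P₁ ≠ AnGerm.const 4 p c • P₂ ∧ P₂ ≠ AnGerm.const 4 p c • P₁) ∧
      (∀ t : ℝ, IsPoisson AnGerm.pd (P₁ + AnGerm.const 4 p t • P₂)) ∧
      IsDarboux AnGerm.pd P₁ ∧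
      (∃ v g c, HasFlatForm AnGerm.pd P₂ v g c) ∧ ¬ IsDarboux AnGerm.pd P₂ := by
  have hpd : (AnGerm.pd : Fin 4 → AnGerm 4 p → AnGerm 4 p) = fn AnGerm.pdD := rfl
  have hu : ∀ i j, (AnGerm.pdD i) (AnGerm.coord j : AnGerm 4 p) = if i = j then 1 else 0 :=
    AnGerm.pd_coord
  have hd : ∀ i j (r : AnGerm 4 p), AnGerm.pdD i (AnGerm.pdD j r)
      = AnGerm.pdD j (AnGerm.pdD i r) := AnGerm.pd_comm
  rw [hpd]
  refine ⟨opEx AnGerm.pdD AnGerm.coord 1 0, opEx AnGerm.pdD AnGerm.coord 1 1,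
    isGeometric_opEx _ _ hd hu 1 0 one_ne_zero,
    isGeometric_opEx _ _ hd hu 1 1 one_ne_zero,
    not_prop AnGerm.pdD AnGerm.coord AnGerm.valHom (fun c => rfl) hu,
    fun t => ?_, isDarboux_opEx _ hd _ hu 1,
    ⟨_, _, _, flatForm_opEx _ hd _ hu 1 1⟩, not_isDarboux_opEx _ hd _ hu AnGerm.valHom⟩
  have h := opEx_add AnGerm.pdD (AnGerm.coord : Fin 4 → AnGerm 4 p) 1 0 1 1 t
  rw [← AnGerm.algebraMap_eq, h]
  exact isPoisson_opEx _ hd _ hu _ _

end Pool.Agent.Results.MP_1a410c_mp.Compatible
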